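import Pool.Agent.Lib.SmS.Defs
import Pool.Agent.Lib.SmJ.L.SelDefs
import Pool.Agent.Lib.GBC.PDef

/-!
SMITH-S (MP_950c68_ag), final layer: the definitions of the final statement.

`F` a field, `f : F[X]` of degree prime to the prime number `l`. The curve `y ^ l = f(x)` has one point at
infinity, which is rational, so (for `F` separably closed and `f` separable) the group of the
`F`-points of its Jacobian is the class group `Jc l f` of the ring `Co l f = F[x, y] / (y ^ l - f)`. For `f : K[X]` and
a separable closure `Ω` of `K`, `JP l Ω f` is `Jc l` of the image of `f`, with the coefficientwise action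
`galP l Ω f` of `Gal(Ω/K)`. `twf D f = D f`.
-/

set_option autoImplicit false

open Polynomial

namespace Pool.Agent.SmS.Fn

open Pool.Agent.BSDFF
open Pool.Agent.GBC (ord)
open Pool.Agent.SmJ.L (Sel Sha Rat)

section jc

variable (l : ℕ) {F : Type} [Field F] (f : F[X]) [Fact l.Prime] [CopDeg l f]

/-- The class group of `F[x, y] / (y ^ l - f)`. -/
def Jc : Type := Additive (ClassGroup (Co l f))

noncomputable instance : AddCommGroup (Jc l f) :=
  inferInstanceAs (AddCommGroup (Additive (ClassGroup (Co l f))))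

variable {f} in
/-- The map induced by an automorphism of `F` which fixes `f`. -/
noncomputable def jcMap (s : F ≃+* F) (h : f.map (s : F →+* F) = f) : Jc l f →+ Jc l f :=
  MonoidHom.toAdditive (ClassGroup.mulEquiv (coMap (l := l) s h 1 (one_pow l))).toMonoidHom

end jc

section jp

variable (l : ℕ) {K : Type} (Ω : Type) [Field K] [Field Ω] [Algebra K Ω] (f : K[X])

instance copDeg_map [CopDeg l f] : CopDeg l (f.map (algebraMap K Ω)) := ⟨by
  rw [natDegree_map]
  exact CopDeg.cop⟩

variable [Fact l.Prime] [CopDeg l f]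

/-- The geometric points of the Jacobian of `y ^ l = f(x)`. -/
abbrev JP : Type := Jc l (f.map (algebraMap K Ω))

omit [Fact l.Prime] [CopDeg l f] in
theorem map_galP (s : Ω ≃ₐ[K] Ω) :
    (f.map (algebraMap K Ω)).map ((s : Ω ≃+* Ω) : Ω →+* Ω) = f.map (algebraMap K Ω) := by
  rw [Polynomial.map_map]
  congr 1
  ext x
  exact s.commutes x

/-- The action of the Galois group. -/
noncomputable def galP (s : Ω ≃ₐ[K] Ω) : JP l Ω f →+ JP l Ω f :=
  jcMap l (s : Ω ≃+* Ω) (map_galP Ω f s)

end jp

section tw

variable {K : Type} [Field K]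

/-- The polynomial `D f`. -/
noncomputable def twf (D : Kˣ) (f : K[X]) : K[X] := C (D : K) * f

instance copDeg_twf (l : ℕ) (D : Kˣ) (f : K[X]) [CopDeg l f] : CopDeg l (twf D f) := ⟨by
  rw [twf, natDegree_C_mul D.ne_zero]
  exact CopDeg.cop⟩

/-- The group of the twists `Kˣ / Kˣˡ`. -/
abbrev Tws (l : ℕ) (K : Type) [Field K] : Type := Kˣ ⧸ (powMonoidHom l : Kˣ →* Kˣ).range

/-- The degree of the conductor of `D`: the sum of the degrees of the places at which the order of `D` is
not divisible by `l`. -/
noncomputable def ramDeg (k : Type) {K : Type} [Field k] [Field K] [Algebra k K] (l : ℕ) (D : K) :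
    ℕ := ∑ᶠ v : Place k K, if (l : ℤ) ∣ ord v D then 0 else v.degree

/-- The classes in `Kˣ / Kˣˡ` which contain a `D` of conductor degree at most `N` with the property
`P`. -/
def TwLE (k : Type) {K : Type} [Field k] [Field K] [Algebra k K] (l N : ℕ) (P : Kˣ → Prop) :
    Set (Tws l K) :=
  {c | ∃ D : Kˣ, (D : Tws l K) = c ∧ ramDeg k l (D : K) ≤ N ∧ P D}

end tw

section good

/-- The elements of `l`-power order. -/
def LPow (l : ℕ) (A : Type) [AddCommGroup A] : Set A := {x | ∃ i : ℕ, l ^ i • x = 0}

/-- The multiples of `n` in `A`. -/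
def mulN (n : ℕ) (A : Type) [AddCommGroup A] : AddSubgroup A := (nsmulAddMonoidHom (α := A) n).range

variable (k : Type) {K Ω : Type} [Field k] [Field K] [Field Ω] [Algebra k K] [Algebra K Ω]
variable {M : Type} [AddCommGroup M] (ρ : (Ω ≃ₐ[K] Ω) → M →+ M)

/-- The conclusions: for all `i` the `l ^ i`-Selmer group is finite of order at most `B`, the `l`-primary part
of the Tate-Shafarevich group is finite of order at most `B`, and `J(K) / l ^ i J(K)` is finite of order at
most `B` for all `i`. -/
structure GoodOn (l B : ℕ) : Prop where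
  sel : ∀ i : ℕ, Finite (Sel k ρ (l ^ i)) ∧ Nat.card (Sel k ρ (l ^ i)) ≤ B
  sha : (LPow l (Sha k ρ)).Finite ∧ (LPow l (Sha k ρ)).ncard ≤ B
  rat : ∀ i : ℕ, (mulN (l ^ i) (Rat ρ)).index ≠ 0 ∧ (mulN (l ^ i) (Rat ρ)).index ≤ B

end good

section final

/-- The conclusions for the Jacobian of `y ^ l = f(x)` over `K`. -/
def GoodJ (k : Type) {K : Type} [Field k] [Field K] [Algebra k K] (l : ℕ) [Fact l.Prime] (f : K[X])
    [CopDeg l f] (B : ℕ) : Prop :=
  GoodOn k (galP l (SeparableClosure K) f) l B

/-- The Galois group acts doubly transitively on the roots of `f`. -/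
def DblTrans {K : Type} [Field K] (f : K[X]) : Prop :=
  ∀ a b a' b' : SeparableClosure K, aeval a f = 0 → aeval b f = 0 → aeval a' f = 0 →
    aeval b' f = 0 → a ≠ b → a' ≠ b' →
    ∃ s : SeparableClosure K ≃ₐ[K] SeparableClosure K, s a = a' ∧ s b = b'

/-- The Galois group of `f` over `K` is the full symmetric group, or it is doubly transitive and its
order is prime to `l`. -/
def GalOk (l : ℕ) {K : Type} [Field K] (f : K[X]) : Prop :=
  Nat.card f.Gal = f.natDegree.factorial ∨ (¬ l ∣ Nat.card f.Gal ∧ DblTrans f)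

end final

end Pool.Agent.SmS.Fn
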