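import Pool.Agent.Lib.SmS.Fn.Defs
import Pool.Agent.Lib.SmS.Gal
import Pool.Agent.Lib.SmN.Fin.Trans
import Pool.Agent.Lib.SmJ.L.GalAct

/-!
SMITH-S, final layer: the Jacobian of `y ^ l = D f(x)` is the twist of the Jacobian of `y ^ l = f(x)`.

`δ ^ l = D`, `δ ∈ Ω`. The isomorphism `Co l (D f) → Co l f`, `x ↦ x`, `y ↦ δ y` (inverse `y ↦ δ⁻¹ y`) turns the
coefficientwise action of `s` into `coMap s h (s δ / δ)`: both map `y` to `δ y` resp. `δ y ↦ s δ (s δ / δ)⁻¹ y = δ y`. Compare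
`SmN/Fin/TwN.lean` (`twCo`, `twIso`, `trans_gN`). `good_congr`: transport of `GoodOn` along an equivariant
isomorphism `e`: `ZSel`, `ZSha`, `BSel`, `BSha`, `Rat` are mapped onto each other by `ψ ↦ e ∘ ψ`.
-/

set_option autoImplicit false

open Polynomial

namespace Pool.Agent.SmS.Fn

open Pool.Agent.SmJ.L (Sel Sha Rat)

section congr

variable (k : Type) {K Ω : Type} [Field k] [Field K] [Field Ω] [Algebra k K] [Algebra K Ω]
variable {M M' : Type} [AddCommGroup M] [AddCommGroup M'] {ρ : (Ω ≃ₐ[K] Ω) → M →+ M}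
  {ρ' : (Ω ≃ₐ[K] Ω) → M' →+ M'}

private theorem trIndex {A A' : Type} [AddCommGroup A] [AddCommGroup A'] (E : A ≃+ A') (n : ℕ) :
    (mulN n A).index = (mulN n A').index := by
  have h : mulN n A' = (mulN n A).map (E : A →+ A') := by
    ext y
    rw [AddSubgroup.mem_map]
    constructor
    · rintro ⟨z, rfl⟩
      refine ⟨n • E.symm z, ⟨E.symm z, rfl⟩, ?_⟩
      change E (n • E.symm z) = n • z
      rw [map_nsmul, AddEquiv.apply_symm_apply]
    · rintro ⟨x, ⟨z, rfl⟩, rfl⟩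
      refine ⟨E z, ?_⟩
      change n • E z = E (n • z)
      rw [map_nsmul]
  rw [h, AddSubgroup.index_map_equiv]

private theorem trLPow {A A' : Type} [AddCommGroup A] [AddCommGroup A'] (E : A ≃+ A') (l : ℕ) :
    LPow l A = E.symm '' LPow l A' := by
  ext x
  constructor
  · rintro ⟨i, hi⟩
    exact ⟨E x, ⟨i, by rw [← map_nsmul, hi, map_zero]⟩, E.symm_apply_apply x⟩
  · rintro ⟨y, ⟨i, hi⟩, rfl⟩
    exact ⟨i, by rw [← map_nsmul, hi, map_zero]⟩

theorem good_congr (e : M ≃+ M') (he : ∀ s Q, e (ρ s Q) = ρ' s (e Q)) {l B : ℕ}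
    (h : GoodOn k ρ' l B) : GoodOn k ρ l B := by
  refine ⟨fun i => ?_, ?_, fun i => ?_⟩
  · obtain ⟨E⟩ := Pool.Agent.SmN.Fnl.exists_selE k e he (l ^ i)
    have h1 := (h.sel i).1
    refine ⟨Finite.of_equiv _ E.symm.toEquiv, ?_⟩
    rw [Nat.card_congr E.toEquiv]
    exact (h.sel i).2
  · obtain ⟨E⟩ := Pool.Agent.SmN.Fnl.exists_shaE k e he
    rw [trLPow E l]
    exact ⟨h.sha.1.image _, (Set.ncard_image_le h.sha.1).trans h.sha.2⟩
  · have hE : ∀ x, e x ∈ Rat ρ' ↔ x ∈ Rat ρ := by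
      intro x
      constructor
      · intro hx s
        apply e.injective
        rw [he, hx s]
      · intro hx s
        rw [← he, hx s]
    rw [trIndex (Pool.Agent.SmN.Fnl.subE e hE)]
    exact h.rat i

end congr

section co

variable {l : ℕ} {F : Type} [Field F] {f g : F[X]}

/-- `x ↦ x`, `y ↦ c y`. -/
private noncomputable def trHom (c : F) (h : g = C (c ^ l) * f) : Co l g →+* Co l f :=
  AdjoinRoot.lift (po l f) (po l f (C c) * yy l f) (by
    rw [eval₂_sub, eval₂_X_pow, eval₂_C, mul_pow, yy_pow, ← map_pow, ← C_pow, h, map_mul, sub_self])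

private theorem trHom_po (c : F) (h : g = C (c ^ l) * f) (p : F[X]) :
    trHom c h (po l g p) = po l f p := AdjoinRoot.lift_of _

private theorem trHom_yy (c : F) (h : g = C (c ^ l) * f) :
    trHom c h (yy l g) = po l f (C c) * yy l f := AdjoinRoot.lift_root _

private theorem trSymm {c : F} (hc : c ≠ 0) (h : g = C (c ^ l) * f) : f = C (c⁻¹ ^ l) * g := by
  rw [h, ← mul_assoc, ← C_mul, ← mul_pow, inv_mul_cancel₀ hc, one_pow, C_1, one_mul]

private theorem trComp {c d : F} (hcd : d * c = 1) (h : g = C (c ^ l) * f) (h' : f = C (d ^ l) * g) :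
    (trHom c h).comp (trHom d h') = RingHom.id (Co l f) := by
  apply hom_ext
  · intro p
    rw [RingHom.comp_apply, trHom_po, trHom_po]
    rfl
  · rw [RingHom.comp_apply, trHom_yy, map_mul, trHom_po, trHom_yy, ← mul_assoc, ← map_mul, ← C_mul,
      hcd, C_1, map_one, one_mul]
    rfl

/-- The isomorphism `x ↦ x`, `y ↦ c y`. -/
private noncomputable def trCo {c : F} (hc : c ≠ 0) (h : g = C (c ^ l) * f) : Co l g ≃+* Co l f :=
  RingEquiv.ofRingHom (trHom c h) (trHom c⁻¹ (trSymm hc h)) (trComp (inv_mul_cancel₀ hc) _ _)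
    (trComp (mul_inv_cancel₀ hc) _ _)

private theorem trCo_po {c : F} (hc : c ≠ 0) (h : g = C (c ^ l) * f) (p : F[X]) :
    trCo hc h (po l g p) = po l f p := trHom_po c h p

private theorem trCo_yy {c : F} (hc : c ≠ 0) (h : g = C (c ^ l) * f) :
    trCo hc h (yy l g) = po l f (C c) * yy l f := trHom_yy c h

private theorem trCo_act [NeZero l] {c : F} (hc : c ≠ 0) (h : g = C (c ^ l) * f) (s : F ≃+* F)
    (hg : g.map (s : F →+* F) = g) (hf : f.map (s : F →+* F) = f) (u : F) (hu : u ^ l = 1)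
    (hs : s c = u * c) (z : Co l g) :
    trCo hc h (coMap s hg 1 (one_pow l) z) = coMap s hf u hu (trCo hc h z) := by
  have e : ((trCo hc h : Co l g →+* Co l f)).comp (coMap s hg 1 (one_pow l) : Co l g →+* Co l g) =
      (coMap s hf u hu : Co l f →+* Co l f).comp (trCo hc h : Co l g →+* Co l f) := by
    apply hom_ext
    · intro p
      change trCo hc h (coMap s hg 1 (one_pow l) (po l g p)) = coMap s hf u hu (trCo hc h (po l g p))
      rw [coMap_po, trCo_po, trCo_po, coMap_po]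
    · change trCo hc h (coMap s hg 1 (one_pow l) (yy l g)) = coMap s hf u hu (trCo hc h (yy l g))
      rw [coMap_yy, map_mul, trCo_po, trCo_yy, map_mul, coMap_po, coMap_yy, map_C, ← mul_assoc,
        ← mul_assoc, ← map_mul (po l f) (C (1 : F)⁻¹), ← map_mul (po l f) (C _) (C u⁻¹), ← C_mul, ← C_mul]
      have h1 : (s : F →+* F) c = u * c := hs
      rw [h1, inv_one, one_mul, mul_comm u c, mul_assoc, mul_inv_cancel₀ (ne_of_pow hu), mul_one]
  exact RingHom.congr_fun e z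

private theorem trDed {R S : Type} [CommRing R] [CommRing S] [IsDomain R] [IsDedekindDomain S]
    (e : R ≃+* S) : IsDedekindDomain R :=
  { isNoetherianRing_of_ringEquiv S e.symm, Ring.DimensionLEOne.of_ringEquiv e,
    IsIntegrallyClosed.of_equiv e.symm with : IsDedekindDomain R }

end co

variable {l : ℕ} {K Ω : Type} [Field K] [Field Ω] [Algebra K Ω] [Fact l.Prime] {f : K[X]}
  [CopDeg l f] [Sup l (fO Ω f)] [IsSepClosed Ω]

/-- The Jacobian of `y ^ l = D f(x)` with the action of the Galois group is the twist of the Jacobian of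
`y ^ l = f(x)` by the cocycle `s δ / δ`, `δ ^ l = D`. -/
theorem exists_twist (D : Kˣ) {δ : Ω} (hδ : δ ^ l = algebraMap K Ω D) :
    ∃ e : JP l Ω (twf D f) ≃+ JJ l (fO Ω f), ∀ (s : Ω ≃ₐ[K] Ω) (u : Ω) (hu : u ^ l = 1),
      s δ = u * δ → ∀ Q, e (galP l Ω (twf D f) s Q) = galU f s u hu (e Q) := by
  have hδ0 : δ ≠ 0 := by
    rintro rfl
    rw [zero_pow (NeZero.ne l)] at hδ
    exact D.ne_zero ((map_eq_zero_iff _ (algebraMap K Ω).injective).mp hδ.symm)
  have hg : (twf D f).map (algebraMap K Ω) = C (δ ^ l) * fO Ω f := by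
    rw [twf, Polynomial.map_mul, map_C, hδ]
  have hD : IsDedekindDomain (Co l ((twf D f).map (algebraMap K Ω))) := trDed (trCo hδ0 hg)
  refine ⟨MulEquiv.toAdditive (ClassGroup.mulEquiv (trCo hδ0 hg)), ?_⟩
  intro s u hu hs Q
  have key : ∀ Q : Additive (ClassGroup (Co l ((twf D f).map (algebraMap K Ω)))),
      MulEquiv.toAdditive (ClassGroup.mulEquiv (trCo hδ0 hg))
        (MonoidHom.toAdditive (ClassGroup.mulEquiv (coMap (l := l) (s : Ω ≃+* Ω)
          (map_galP Ω (twf D f) s) 1 (one_pow l))).toMonoidHom Q) =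
      act (s : Ω ≃+* Ω) (map_gal f s) u hu
        (MulEquiv.toAdditive (ClassGroup.mulEquiv (trCo hδ0 hg)) Q) := by
    intro Q
    obtain ⟨I, hI, rfl⟩ := SmJ.exists_cls Q
    have h1 : MulEquiv.toAdditive (ClassGroup.mulEquiv (trCo hδ0 hg)) (SmJ.cls I) =
        SmJ.cls (I.map (trCo hδ0 hg : Co l ((twf D f).map (algebraMap K Ω)) →+* Co l (fO Ω f))) := by
      have h2 := SmJ.map_ne_bot (trCo hδ0 hg) hI
      rw [SmJ.cls_of_ne hI, SmJ.cls_of_ne h2]
      exact congrArg Additive.ofMul (SmJ.L.mulEquiv_mk0 (trCo hδ0 hg)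
        ⟨I, mem_nonZeroDivisors_of_ne_zero hI⟩ (mem_nonZeroDivisors_of_ne_zero h2))
    have h3 : MonoidHom.toAdditive (ClassGroup.mulEquiv (coMap (l := l) (s : Ω ≃+* Ω)
          (map_galP Ω (twf D f) s) 1 (one_pow l))).toMonoidHom (SmJ.cls I) =
        SmJ.cls (I.map (coMap (l := l) (s : Ω ≃+* Ω) (map_galP Ω (twf D f) s) 1 (one_pow l) :
          Co l ((twf D f).map (algebraMap K Ω)) →+* Co l ((twf D f).map (algebraMap K Ω)))) := by
      have h2 := SmJ.map_ne_bot (coMap (l := l) (s : Ω ≃+* Ω) (map_galP Ω (twf D f) s) 1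
        (one_pow l)) hI
      rw [SmJ.cls_of_ne hI, SmJ.cls_of_ne h2]
      exact congrArg Additive.ofMul (SmJ.L.mulEquiv_mk0 (coMap (l := l) (s : Ω ≃+* Ω)
        (map_galP Ω (twf D f) s) 1 (one_pow l))
        ⟨I, mem_nonZeroDivisors_of_ne_zero hI⟩ (mem_nonZeroDivisors_of_ne_zero h2))
    have h4 : ∀ J : Ideal (Co l ((twf D f).map (algebraMap K Ω))), J ≠ ⊥ →
        MulEquiv.toAdditive (ClassGroup.mulEquiv (trCo hδ0 hg)) (SmJ.cls J) =
        SmJ.cls (J.map (trCo hδ0 hg : Co l ((twf D f).map (algebraMap K Ω)) →+* Co l (fO Ω f))) := by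
      intro J hJ
      have h2 := SmJ.map_ne_bot (trCo hδ0 hg) hJ
      rw [SmJ.cls_of_ne hJ, SmJ.cls_of_ne h2]
      exact congrArg Additive.ofMul (SmJ.L.mulEquiv_mk0 (trCo hδ0 hg)
        ⟨J, mem_nonZeroDivisors_of_ne_zero hJ⟩ (mem_nonZeroDivisors_of_ne_zero h2))
    rw [h3, h4 _ (SmJ.map_ne_bot _ hI), h1, act_cls, Ideal.map_map, Ideal.map_map]
    congr 1
    congr 1
    exact RingHom.ext fun z => trCo_act hδ0 hg (s : Ω ≃+* Ω) (map_galP Ω (twf D f) s)
      (map_gal f s) u hu hs z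
  exact key Q

/-- The twist by a character. -/
theorem good_twist (k : Type) [Field k] [Algebra k K] (D : Kˣ) {δ : Ω}
    (hδ : δ ^ l = algebraMap K Ω D) {ζ : Ω} (hz : ζ ^ l = 1) {chi : (Ω ≃ₐ[K] Ω) → ZMod l}
    (hchi : ∀ s : Ω ≃ₐ[K] Ω, s δ = ζ ^ (chi s).val * δ) {B : ℕ}
    (h : GoodOn k (twS f hz chi) l B) : GoodOn k (galP l Ω (twf D f)) l B := by
  obtain ⟨e, he⟩ := exists_twist (f := f) D hδ
  exact good_congr k e (fun s Q => he s _ (zpow_pow hz _) (hchi s) Q) h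

end Pool.Agent.SmS.Fn
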