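import Pool.Agent.Lib.SmS.Fn.Defs
import Pool.Agent.Lib.SmN.Fin.Const

/-!
SMITH-S, final layer: reduction to the case where `k` is the field of constants.

PORT of the corresponding theorems of `SmN/Fin/Const.lean` (`ramDeg_const`, `twLE_const`, `goodOnJ_const`) and of
`tw_descend` in `SmN/Fin/FinJ.lean`.
-/

set_option autoImplicit false

namespace Pool.Agent.SmS.Fn

open Pool.Agent.BSDFF
open Pool.Agent.SmJ.L (Sel Sha Rat)

section two

variable (k k' : Type) {K : Type} [Field k] [Field k'] [Finite k] [Finite k'] [Field K]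
  [Algebra k K] [Algebra k' K] [Algebra k k'] [IsScalarTower k k' K]

theorem ramDeg_const (l : ℕ) (d : K) :
    ramDeg k l d = Module.finrank k k' * ramDeg k' l d := by
  have h0 : Function.Injective (AddMonoidHom.mulLeft (Module.finrank k k')) := fun a b h =>
    Nat.eq_of_mul_eq_mul_left (SmN.Fnl.finrank_pos k k') h
  have h1 := (AddMonoidHom.mulLeft (Module.finrank k k')).map_finsum_of_injective h0
    fun v : Place k' K => if (l : ℤ) ∣ Pool.Agent.GBC.ord v d then 0 else v.degree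
  change _ = AddMonoidHom.mulLeft (Module.finrank k k') (ramDeg k' l d)
  unfold ramDeg
  rw [h1, ← finsum_comp_equiv (SmN.Fnl.plE k k' : Place k K ≃ Place k' K)]
  refine finsum_congr fun v => ?_
  rw [SmN.Fnl.ord_plE, SmN.Fnl.degree_plE k k' v, AddMonoidHom.coe_mulLeft]
  split_ifs
  · rfl
  · rfl

theorem twLE_const (l N : ℕ) (P : Kˣ → Prop) :
    TwLE k l N P = TwLE k' l (N / Module.finrank k k') P := by
  ext c
  refine exists_congr fun d => and_congr_right fun _ => and_congr_left fun _ => ?_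
  rw [ramDeg_const k k', Nat.le_div_iff_mul_le (SmN.Fnl.finrank_pos k k'), mul_comm]

omit [Algebra k k'] [IsScalarTower k k' K] in
theorem goodOn_const {Ω : Type} [Field Ω] [Algebra K Ω] {M : Type} [AddCommGroup M]
    (ρ : (Ω ≃ₐ[K] Ω) → M →+ M) {l B : ℕ} (h : GoodOn k ρ l B) : GoodOn k' ρ l B := by
  have hw : ∀ w : ValuationSubring Ω, (∀ c : k, algebraMap K Ω (algebraMap k K c) ∈ w) ↔
      ∀ c : k', algebraMap K Ω (algebraMap k' K c) ∈ w := fun w => SmN.Fnl.const_iff k k' w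
  refine ⟨fun i => ?_, ?_, h.rat⟩
  · rw [← SmN.Fnl.sel_const k k' ρ hw]
    exact h.sel i
  · have h1 : ∀ (Z Z' : AddSubgroup ((Ω ≃ₐ[K] Ω) → M)), Z = Z' →
        ((LPow l (Z ⧸ (SmJ.L.BSha ρ).addSubgroupOf Z)).Finite ∧
          (LPow l (Z ⧸ (SmJ.L.BSha ρ).addSubgroupOf Z)).ncard ≤ B) →
        ((LPow l (Z' ⧸ (SmJ.L.BSha ρ).addSubgroupOf Z')).Finite ∧
          (LPow l (Z' ⧸ (SmJ.L.BSha ρ).addSubgroupOf Z')).ncard ≤ B) := by
      rintro Z _ rfl h
      exact h
    exact h1 _ _ (SmN.Fnl.zsha_const k k' ρ hw) h.sha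

/-- Descent of a statement on proportions from the field of constants to `k`. -/
theorem tw_descend {l : ℕ} {Bad Bad' : ℕ → Kˣ → Prop} (hB : ∀ j d, Bad j d → Bad' j d)
    (h : (∀ N, (TwLE k' l N (fun _ : Kˣ => True)).Finite) ∧
      ∀ ε : ℝ, 0 < ε → ∃ j N₀ : ℕ, ∀ N ≥ N₀,
        ((TwLE k' l N (Bad' j)).ncard : ℝ) ≤ ε * (TwLE k' l N (fun _ : Kˣ => True)).ncard) :
    (∀ N, (TwLE k l N (fun _ : Kˣ => True)).Finite) ∧
      ∀ ε : ℝ, 0 < ε → ∃ j N₀ : ℕ, ∀ N ≥ N₀,
        ((TwLE k l N (Bad j)).ncard : ℝ) ≤ ε * (TwLE k l N (fun _ : Kˣ => True)).ncard := by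
  refine ⟨fun N => ?_, fun ε hε => ?_⟩
  · rw [twLE_const k k']
    exact h.1 _
  · obtain ⟨j, N₀, h1⟩ := h.2 ε hε
    refine ⟨j, N₀ * Module.finrank k k', fun N hN => ?_⟩
    have h2 := h1 (N / Module.finrank k k')
      ((Nat.le_div_iff_mul_le (SmN.Fnl.finrank_pos k k')).2 hN)
    rw [twLE_const k k', twLE_const k k']
    refine le_trans ?_ h2
    refine Nat.cast_le.2 (Set.ncard_le_ncard ?_
      ((h.1 (N / Module.finrank k k')).subset
        (t := TwLE k' l (N / Module.finrank k k') (Bad' j)) ?_))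
    · rintro c ⟨d, h3, h4, h5⟩
      exact ⟨d, h3, h4, hB j _ h5⟩
    · rintro c ⟨d, h3, h4, h5⟩
      exact ⟨d, h3, h4, trivial⟩

end two

end Pool.Agent.SmS.Fn
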