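import Pool.Agent.Lib.SmS.Fn.Defs
import Pool.Agent.Lib.SmJ.L.Kum
import Pool.Agent.Lib.SmL.Fnl.Num

/-!
SMITH-S, final layer: bounded Selmer groups.

`good_of_bdd`: from `#Sel(l ^ i) ≤ B` for all `i`: the `l ^ i`-torsion of `Sha` is an image of `Sel(l ^ i)`
(`range_selToSha`), the `l`-primary part is the increasing union (compare `finite_lPow_of_bdd` in `SmL/Fnl/Num.lean`);
`card_sel` : `#Sel = #(J(K) / l ^ i J(K)) #Sha[l ^ i]`.
-/

set_option autoImplicit false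

namespace Pool.Agent.SmS.Fn

open Pool.Agent.SmJ.L (Sel Sha Rat GMod)

variable (k : Type) {K Ω : Type} [Field k] [Field K] [Field Ω] [Algebra k K] [Algebra K Ω]
variable {M : Type} [AddCommGroup M] {ρ : (Ω ≃ₐ[K] Ω) → M →+ M}

theorem good_of_bdd (h : GMod ρ) {l B : ℕ} (hl : l.Prime) (hdiv : ∀ P : M, ∃ Q, l • Q = P)
    (hS : ∀ i : ℕ, Finite (Sel k ρ (l ^ i)) ∧ Nat.card (Sel k ρ (l ^ i)) ≤ B) :
    GoodOn k ρ l B := by
  have hd : ∀ (i : ℕ) (P : M), ∃ Q, l ^ i • Q = P := by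
    intro i
    induction i with
    | zero => exact fun P => ⟨P, by rw [pow_zero, one_smul]⟩
    | succ i ih =>
      intro P
      obtain ⟨Q, hQ⟩ := ih P
      obtain ⟨R, hR⟩ := hdiv Q
      exact ⟨R, by rw [pow_succ, mul_smul, hR, hQ]⟩
  have hpos : ∀ i, 0 < Nat.card (Sel k ρ (l ^ i)) := by
    intro i
    have := (hS i).1
    exact Nat.card_pos
  have hc : ∀ i, Nat.card (Sel k ρ (l ^ i)) =
      (mulN (l ^ i) (Rat ρ)).index *
        Nat.card (Pool.Agent.BSDFF.MW.Gn (Sha k ρ) (l ^ i)) :=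
    fun i => Pool.Agent.SmJ.L.card_sel h (l ^ i) (hd i)
  have h1 : ∀ i, 0 < (mulN (l ^ i) (Rat ρ)).index ∧
      0 < Nat.card (Pool.Agent.BSDFF.MW.Gn (Sha k ρ) (l ^ i)) := by
    intro i
    have h2 := hpos i
    rw [hc i] at h2
    exact ⟨Nat.pos_of_mul_pos_right h2, Nat.pos_of_mul_pos_left h2⟩
  have h2 : ∀ i, Nat.card (Pool.Agent.BSDFF.MW.Gn (Sha k ρ) (l ^ i)) ≤ B := by
    intro i
    refine le_trans ?_ (hS i).2
    rw [hc i]
    exact Nat.le_mul_of_pos_left _ (h1 i).1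
  have h3 : ∀ i, Finite (Pool.Agent.BSDFF.MW.Gn (Sha k ρ) (l ^ i)) :=
    fun i => Nat.finite_of_card_ne_zero (h1 i).2.ne'
  have h4 : Finite (Pool.Agent.SmL.V.lPow l (Sha k ρ)) :=
    Pool.Agent.SmL.Fnl.finite_lPow_of_bdd h3 h2
  have h50 : LPow l (Sha k ρ) = (Pool.Agent.SmL.V.lPow l (Sha k ρ) : Set (Sha k ρ)) := rfl
  have h5 : (LPow l (Sha k ρ)).Finite := by
    rw [h50]
    exact Set.toFinite _
  refine ⟨hS, ⟨h5, ?_⟩, fun i => ⟨(h1 i).1.ne', ?_⟩⟩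
  · have h6 : ∃ N, ∀ x ∈ LPow l (Sha k ρ), l ^ N • x = 0 := by
      choose e he using fun x : LPow l (Sha k ρ) => (x.2 : ∃ i : ℕ, l ^ i • (x : Sha k ρ) = 0)
      have : Fintype (LPow l (Sha k ρ)) := h5.fintype
      refine ⟨∑ y, e y, fun x hx => ?_⟩
      have h7 : e ⟨x, hx⟩ ≤ ∑ y, e y :=
        Finset.single_le_sum (fun _ _ => Nat.zero_le _) (Finset.mem_univ _)
      obtain ⟨m, hm⟩ := Nat.exists_eq_add_of_le h7
      rw [hm, pow_add, mul_comm, mul_smul, he ⟨x, hx⟩, smul_zero]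
    obtain ⟨N, hN⟩ := h6
    refine le_trans ?_ (h2 N)
    have := h3 N
    have h8 : LPow l (Sha k ρ) ⊆ (Pool.Agent.BSDFF.MW.Gn (Sha k ρ) (l ^ N) : Set (Sha k ρ)) :=
      fun x hx => hN x hx
    exact Set.ncard_le_ncard h8 (Set.toFinite _)
  · refine le_trans ?_ (hS i).2
    rw [hc i]
    exact Nat.le_mul_of_pos_right _ (h1 i).2

end Pool.Agent.SmS.Fn
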