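import Pool.Agent.Lib.SmS.Fn.Defs
import Pool.Agent.Lib.SmL.Fnl.Tot
import Pool.Agent.Lib.SmL.Fld.CardK

/-!
SMITH-S, final layer: from the characters of order `l` to the classes in `Kˣ / Kˣˡ`.

PORT of `SmN/Fin/Kum.lean` (`chi K d` becomes `chl l ζ d`, `exists_equiv`, `all_twists`) to `l`.
`rdeg_chl`: `chl l ζ d (sg v) = 0` iff `l ∣ ord v d`: if `chl l ζ d (sg v) = 0` then `chl l ζ d` is zero on the inertia
group (`Std.igen`: the inertia group is generated by `sg v` modulo every group of the family), and on all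
conjugates; `unrAt_chl_iff` (`SmL/Fld/CardK.lean`).
-/

set_option autoImplicit false

open Finset

namespace Pool.Agent.SmS.Fn

open Pool.Agent.BSDFF Pool.Agent.GBU Pool.Agent.Lib.SmD
open Pool.Agent.GBC (ord)
open Pool.Agent.SmL Pool.Agent.SmL.Fld Pool.Agent.SmL.Fnl Pool.Agent.SmL.C

variable {k K : Type} [Field k] [Finite k] [Field K] [Algebra k K] [Algebra (RatFunc k) K]
  [IsScalarTower k (RatFunc k) K] [FiniteDimensional (RatFunc k) K]
  [Algebra.IsSeparable (RatFunc k) K] {Om : Type} [Field Om] [Algebra K Om] [IsSepClosure K Om]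
  {l : ℕ} {ζ : Om} {NN : Set (Subgroup (Om ≃ₐ[K] Om))} {w : Place k K → ValuationSubring Om}
  {sg ph : Place k K → Om ≃ₐ[K] Om}
  {A V V1 : Type} [CommRing A] [AddCommGroup V] [Module A V]
  [DistribMulAction (Om ≃ₐ[K] Om) V] [AddCommGroup V1] [Module (ZMod l) V1]
  {S : Sys l A (Om ≃ₐ[K] Om) V V1 (Place k K)}

theorem homG_iff_homO (hl : l.Prime) (hS : Std l ζ NN w sg ph) (htop : ⊤ ∈ NN) (hNN : S.NN = NN)
    {c : (Om ≃ₐ[K] Om) → ZMod l} : S.HomG c ↔ HomO l c := by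
  constructor
  · rintro ⟨⟨N, hN, h1⟩, h3⟩
    rw [hNN] at hN
    refine ⟨h3, N, hS.fam.isOpen N hN, fun s hs => ?_⟩
    have h4 := h1 1 s hs
    have h5 := h3 1 1
    rw [one_mul] at h4 h5
    rw [h4]
    exact left_eq_add.1 h5
  · intro h
    obtain ⟨N, hN, h1⟩ := h.level (k := k) hl hS.fam htop
    exact ⟨⟨N, by rw [hNN]; exact hN, h1⟩, h.add⟩

open Pool.Agent.GBC in
/-- the value at the tame generator of a product with a power of a uniformizer -/
private theorem FnKum_unif (hl : l.Prime) (hζ : IsPrimitiveRoot ζ l)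
    (hζK : ∃ z : K, algebraMap K Om z = ζ) (hS : Std l ζ NN w sg ph) (v : Place k K) {a : K}
    (ha : a ≠ 0) (m : ℕ) : chl l ζ (a * ((unif v : v.ring) : K) ^ m) (sg v) =
      chl l ζ a (sg v) + m := by
  have hπ := unif_irreducible v
  have hπ0 : ((unif v : v.ring) : K) ≠ 0 := ((irreducible_iff v (unif v)).1 hπ).1
  induction m with
  | zero => rw [pow_zero, mul_one, Nat.cast_zero, add_zero]
  | succ m ih =>
    obtain ⟨r, hr⟩ := exists_root (K := K) (Ω := Om) hl hζ ((unif v : v.ring) : K)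
    have h1 : chl l ζ ((unif v : v.ring) : K) (sg v) = ((1 : ℕ) : ZMod l) :=
      chl_eq_of hl hζ hζK hπ0 hr (by
        rw [pow_one]
        exact hS.loc.val v (unif v) hπ r hr)
    rw [pow_succ, ← mul_assoc, chl_mul hl hζ hζK (mul_ne_zero ha (pow_ne_zero m hπ0)) hπ0, ih, h1,
      Nat.cast_add, add_assoc]

open Pool.Agent.GBC in
/-- the value at the tame generator is zero iff the order is divisible by `l` -/
private theorem FnKum_sg (h2 : (2 : k) ≠ 0) (hl : l.Prime) (hζ : IsPrimitiveRoot ζ l)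
    (hζK : ∃ z : K, algebraMap K Om z = ζ) (hS : Std l ζ NN w sg ph) (v : Place k K) {a : K}
    (ha : a ≠ 0) : chl l ζ a (sg v) = 0 ↔ (l : ℤ) ∣ ord v a := by
  have hback : ∀ {b : K}, b ≠ 0 → (l : ℤ) ∣ ord v b → chl l ζ b (sg v) = 0 := fun {b} hb h =>
    ((unrAt_chl_iff h2 hl hζ hζK hb v).2 h) (w v) (hS.loc.below v) (sg v) (hS.loc.iner v)
  refine ⟨fun h => ?_, hback ha⟩
  have hπ := unif_irreducible v
  obtain ⟨hπ0, hπ1⟩ := (irreducible_iff v (unif v)).1 hπ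
  have hl0 : (l : ℤ) ≠ 0 := by
    exact_mod_cast hl.ne_zero
  obtain ⟨m, hm⟩ := Int.eq_ofNat_of_zero_le (Int.emod_nonneg (-ord v a) hl0)
  have h1 : (l : ℤ) ∣ ord v a + m := by
    rw [← hm]
    refine ⟨-(-ord v a / l), ?_⟩
    have h3 := Int.emod_add_mul_ediv (-ord v a) l
    linarith
  have h3 : chl l ζ (a * ((unif v : v.ring) : K) ^ m) (sg v) = 0 := by
    refine hback (mul_ne_zero ha (pow_ne_zero m hπ0)) ?_
    rw [ord_mul v ha (pow_ne_zero m hπ0), ord_pow v hπ0, hπ1, mul_one]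
    exact h1
  rw [FnKum_unif hl hζ hζK hS v ha m, h, zero_add, ZMod.natCast_eq_zero_iff] at h3
  have h4 : (l : ℤ) ∣ (m : ℤ) := Int.natCast_dvd_natCast.2 h3
  exact (dvd_add_left h4).1 h1

/-- the inverse of an element -/
private theorem FnKum_inv (hl : l.Prime) (hζ : IsPrimitiveRoot ζ l)
    (hζK : ∃ z : K, algebraMap K Om z = ζ) (u : Kˣ) (s : Om ≃ₐ[K] Om) :
    chl l ζ ((u⁻¹ : Kˣ) : K) s = - chl l ζ (u : K) s := by
  have h1 := chl_mul hl hζ hζK (u.ne_zero) (u⁻¹.ne_zero) s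
  have h3 : chl l ζ (1 : K) s = 0 := by
    refine ((chl_eq_zero_iff hl hζ hζK (one_ne_zero)).2 ⟨1, one_pow _⟩) s
  rw [Units.mul_inv, h3] at h1
  exact (neg_eq_of_add_eq_zero_right h1.symm).symm

private theorem FnKum_eq_iff (hl : l.Prime) (hζ : IsPrimitiveRoot ζ l)
    (hζK : ∃ z : K, algebraMap K Om z = ζ) (d e : Kˣ) :
    (chl l ζ (d : K) : (Om ≃ₐ[K] Om) → ZMod l) = chl l ζ (e : K) ↔
      (d : Tws l K) = (e : Tws l K) := by
  have h5 : ∀ s : Om ≃ₐ[K] Om, chl l ζ ((d⁻¹ * e : Kˣ) : K) s =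
      - chl l ζ (d : K) s + chl l ζ (e : K) s := by
    intro s
    rw [← FnKum_inv hl hζ hζK, ← chl_mul hl hζ hζK (Units.ne_zero _) (Units.ne_zero _),
      Units.val_mul]
  have hz : (∀ s : Om ≃ₐ[K] Om, chl l ζ ((d⁻¹ * e : Kˣ) : K) s = 0) ↔
      (chl l ζ (d : K) : (Om ≃ₐ[K] Om) → ZMod l) = chl l ζ (e : K) := by
    constructor
    · intro h6
      funext s
      have h7 := h6 s
      rw [h5, neg_add_eq_zero] at h7
      exact h7
    · intro h6 s
      rw [h5, h6, neg_add_cancel]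
  rw [QuotientGroup.eq, ← hz, chl_eq_zero_iff hl hζ hζK (Units.ne_zero _)]
  constructor
  · rintro ⟨b, hb⟩
    have hb0 : b ≠ 0 := by
      rintro rfl
      rw [zero_pow hl.ne_zero] at hb
      exact Units.ne_zero _ hb.symm
    refine ⟨Units.mk0 b hb0, Units.ext ?_⟩
    change (Units.mk0 b hb0 : Kˣ).val ^ l = _
    rw [Units.val_mk0, hb]
  · rintro ⟨b, hb⟩
    exact ⟨(b : K), by rw [← hb]; rfl⟩

theorem rdeg_chl (h2 : (2 : k) ≠ 0) (hl : l.Prime) (hζ : IsPrimitiveRoot ζ l)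
    (hζK : ∃ z : K, algebraMap K Om z = ζ) (hS : Std l ζ NN w sg ph) (htop : ⊤ ∈ NN)
    (hNN : S.NN = NN) (hsg : S.sg = sg) (d : Kˣ) :
    rdeg S Place.degree (chl l ζ (d : K)) = ramDeg k l (d : K) := by
  classical
  rw [rdeg, ramDeg]
  refine finsum_congr fun v => ?_
  rw [hsg]
  by_cases h : (l : ℤ) ∣ ord v (d : K)
  · rw [if_pos h, if_pos ((FnKum_sg h2 hl hζ hζK hS v d.ne_zero).2 h)]
  · rw [if_neg h, if_neg fun h' => h ((FnKum_sg h2 hl hζ hζK hS v d.ne_zero).1 h')]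

/-- The classes are the characters. -/
theorem exists_equiv (hl : l.Prime) (hζ : IsPrimitiveRoot ζ l)
    (hζK : ∃ z : K, algebraMap K Om z = ζ) (hS : Std l ζ NN w sg ph) (htop : ⊤ ∈ NN)
    (hNN : S.NN = NN) :
    ∃ e : Tws l K ≃ {c : (Om ≃ₐ[K] Om) → ZMod l // S.HomG c},
      ∀ d : Kˣ, (e (d : Tws l K)).1 = chl l ζ (d : K) := by
  classical
  have h1 : ∀ d : Kˣ, S.HomG (chl l ζ (d : K)) := fun d =>
    (homG_iff_homO hl hS htop hNN).2 (homO_chl hl hζ hζK d.ne_zero)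
  let f : Tws l K → {c : (Om ≃ₐ[K] Om) → ZMod l // S.HomG c} := fun c =>
    ⟨chl l ζ ((Quotient.out c : Kˣ) : K), h1 _⟩
  have hf : ∀ d : Kˣ, (f (d : Tws l K)).1 = chl l ζ (d : K) := by
    intro d
    refine (FnKum_eq_iff hl hζ hζK _ _).2 ?_
    exact Quotient.out_eq _
  refine ⟨Equiv.ofBijective f ⟨fun c c' h => ?_, fun c => ?_⟩, hf⟩
  · induction c using QuotientGroup.induction_on with
    | H d =>
      induction c' using QuotientGroup.induction_on with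
      | H d' =>
        have h3 := congrArg Subtype.val h
        rw [hf, hf] at h3
        exact (FnKum_eq_iff hl hζ hζK _ _).1 h3
  · obtain ⟨a, ha, h3⟩ := ((homG_iff_homO hl hS htop hNN).1 c.2).kummer hl hζ hζK
    refine ⟨((Units.mk0 a ha : Kˣ) : Tws l K), ?_⟩
    apply Subtype.ext
    rw [hf]
    funext s
    rw [h3]
    rfl

/-- From the characters to the classes. -/
theorem all_twists (h2 : (2 : k) ≠ 0) (hl : l.Prime) (hζ : IsPrimitiveRoot ζ l)
    (hζK : ∃ z : K, algebraMap K Om z = ζ) (hS : Std l ζ NN w sg ph) (htop : ⊤ ∈ NN)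
    (hNN : S.NN = NN) (hsg : S.sg = sg)
    (hfin : ∀ n, Finite {c : {c : (Om ≃ₐ[K] Om) → ZMod l // S.HomG c} //
      rdeg S Place.degree c.1 ≤ n})
    (Good : ℕ → Kˣ → Prop) (Small : ℕ → ((Om ≃ₐ[K] Om) → ZMod l) → Prop)
    (hgood : ∀ m : ℕ, 1 ≤ m → ∃ B, ∀ d : Kˣ, Small m (chl l ζ (d : K)) → Good B d)
    (hall : ∀ ε : ℝ, 0 < ε → ∃ m₁ : ℕ, ∀ m ≥ m₁, ∃ n₀ : ℕ, ∀ n ≥ n₀,
      (Nat.card {c : {c : (Om ≃ₐ[K] Om) → ZMod l // S.HomG c} //
        rdeg S Place.degree c.1 ≤ n ∧ ¬ Small m c.1} : ℝ) ≤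
        ε * Nat.card {c : {c : (Om ≃ₐ[K] Om) → ZMod l // S.HomG c} //
          rdeg S Place.degree c.1 ≤ n}) :
    (∀ N, (TwLE k l N (fun _ : Kˣ => True)).Finite) ∧
    ∀ ε : ℝ, 0 < ε → ∃ B N₀ : ℕ, ∀ N ≥ N₀,
      ((TwLE k l N (fun d : Kˣ => ¬ Good B d)).ncard : ℝ) ≤
        ε * (TwLE k l N (fun _ : Kˣ => True)).ncard := by
  classical
  obtain ⟨e, he⟩ := exists_equiv (S := S) hl hζ hζK hS htop hNN
  have hdeg : ∀ (c : Tws l K) (d : Kˣ), (d : Tws l K) = c →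
      rdeg S Place.degree (e c).1 = ramDeg k l (d : K) := by
    rintro c d rfl
    rw [he, rdeg_chl h2 hl hζ hζK hS htop hNN hsg]
  have hiff : ∀ (n : ℕ) (c : Tws l K), c ∈ TwLE k l n (fun _ : Kˣ => True) ↔
      rdeg S Place.degree (e c).1 ≤ n := by
    intro n c
    constructor
    · rintro ⟨d, hd, h1, -⟩
      rw [hdeg c d hd]
      exact h1
    · intro h
      induction c using QuotientGroup.induction_on with
      | H d => exact ⟨d, rfl, by rwa [← hdeg _ d rfl], trivial⟩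
  have hcard : ∀ n, (TwLE k l n (fun _ : Kˣ => True)).ncard =
      Nat.card {c : {c : (Om ≃ₐ[K] Om) → ZMod l // S.HomG c} //
        rdeg S Place.degree c.1 ≤ n} := by
    intro n
    rw [← Nat.card_coe_set_eq]
    exact Nat.card_congr (e.subtypeEquiv fun c => hiff n c)
  have hfin' : ∀ N, (TwLE k l N (fun _ : Kˣ => True)).Finite := by
    intro N
    have := hfin N
    have h1 : (TwLE k l N (fun _ : Kˣ => True) : Set (Tws l K)) ≃
        {c : {c : (Om ≃ₐ[K] Om) → ZMod l // S.HomG c} // rdeg S Place.degree c.1 ≤ N} :=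
      e.subtypeEquiv fun c => hiff N c
    exact @Set.toFinite _ _ (Finite.of_equiv _ h1.symm)
  refine ⟨hfin', fun ε hε => ?_⟩
  obtain ⟨m₁, h1⟩ := hall ε hε
  obtain ⟨n₀, h3⟩ := h1 (max m₁ 1) (le_max_left _ _)
  obtain ⟨B, hB⟩ := hgood (max m₁ 1) (le_max_right _ _)
  refine ⟨B, n₀, fun N hN => ?_⟩
  refine le_trans ?_ ((h3 N hN).trans (by rw [hcard]))
  have := hfin N
  have h4 : (TwLE k l N (fun d : Kˣ => ¬ Good B d)).ncard ≤
      Nat.card {c : {c : (Om ≃ₐ[K] Om) → ZMod l // S.HomG c} //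
        rdeg S Place.degree c.1 ≤ N ∧ ¬ Small (max m₁ 1) c.1} := by
    have h5 : Finite {c : {c : (Om ≃ₐ[K] Om) → ZMod l // S.HomG c} //
        rdeg S Place.degree c.1 ≤ N ∧ ¬ Small (max m₁ 1) c.1} :=
      Finite.of_injective (β := {c : {c : (Om ≃ₐ[K] Om) → ZMod l // S.HomG c} //
        rdeg S Place.degree c.1 ≤ N}) (fun c => ⟨c.1, c.2.1⟩) fun c c' h =>
          Subtype.ext (congrArg (fun x : {c : {c : (Om ≃ₐ[K] Om) → ZMod l // S.HomG c} //
            rdeg S Place.degree c.1 ≤ N} => x.1) h)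
    rw [← Nat.card_coe_set_eq]
    refine Nat.card_le_card_of_injective (fun c => ⟨e c.1, ?_⟩) fun c c' h => ?_
    · obtain ⟨d, hd, h6, h7⟩ := c.2
      refine ⟨by rw [hdeg _ d hd]; exact h6, fun h8 => h7 (hB d ?_)⟩
      rw [← he, hd]
      exact h8
    · apply Subtype.ext
      apply e.injective
      exact congrArg (fun x : {c : {c : (Om ≃ₐ[K] Om) → ZMod l // S.HomG c} //
        rdeg S Place.degree c.1 ≤ N ∧ ¬ Small (max m₁ 1) c.1} => x.1) h
  exact_mod_cast h4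

end Pool.Agent.SmS.Fn
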