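import Pool.Agent.Lib.SmS.Brg
import Pool.Agent.Lib.SmS.Lev
import Pool.Agent.Lib.SmS.Asm
import Pool.Agent.Lib.SmS.ExK
import Pool.Agent.Lib.SmS.Fn.Bd
import Pool.Agent.Lib.SmS.Fn.Kum
import Pool.Agent.Lib.SmS.Fn.Tr
import Pool.Agent.Lib.SmL.Fnl.Abs

/-!
# SMITH-S, final layer: the twists of one curve, `k` the field of constants
-/

set_option autoImplicit false

open Polynomial

namespace Pool.Agent.SmS.Fn

open Pool.Agent.BSDFF Pool.Agent.Lib.SmD Pool.Agent.GBU Pool.Agent.SmL.Ar Pool.Agent.SmL.C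
  Pool.Agent.SmL.Fld Pool.Agent.SmL.Ch Pool.Agent.SmL.V Pool.Agent.SmL Pool.Agent.SmL.Fnl
open Pool.Agent.SmJ.L (GMod Sel)

section gen

variable {l : ℕ} {G J : Type*} [Group G] [AddCommGroup J] [DistribMulAction G J]

/-- `J` is divisible by `l`. -/
theorem exists_l_smul [hl : Fact l.Prime] (D : AutM l G J) (hdiv : ∀ Q : J, ∃ R, R - D.sig R = Q)
    (Q : J) : ∃ R, l • R = Q := by
  obtain ⟨g, hg⟩ := exists_g l
  let σ : AddMonoid.End J := D.sig
  let φ : ℤ[X] →ₐ[ℤ] AddMonoid.End J := aeval σ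
  have hφX : φ X = σ := aeval_X _
  have hpow : ∀ (n : ℕ) (R : J), (σ ^ n) R = (⇑D.sig)^[n] R := by
    intro n
    induction n with
    | zero => intro R; rfl
    | succ n ih =>
      intro R
      rw [pow_succ, Function.iterate_succ_apply, ← ih]
      rfl
  have hsum : ∀ R : J, (φ (∑ i ∈ Finset.range l, X ^ i)) R = 0 := by
    intro R
    rw [map_sum]
    simp only [map_pow, hφX]
    rw [← D.sum R]
    have h1 : ∀ s : Finset ℕ, (∑ i ∈ s, (σ ^ i)) R = ∑ i ∈ s, (⇑D.sig)^[i] R := by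
      classical
      intro s
      induction s using Finset.induction_on with
      | empty => rfl
      | insert i s hi ih =>
        rw [Finset.sum_insert hi, Finset.sum_insert hi, ← ih, ← hpow]
        rfl
    exact h1 _
  have hlam : ∀ n : ℕ, ∀ Q : J, ∃ R, (φ ((1 - X) ^ n)) R = Q := by
    intro n
    induction n with
    | zero => intro Q; exact ⟨Q, by rw [pow_zero, map_one]; rfl⟩
    | succ n ih =>
      intro Q
      obtain ⟨R, hR⟩ := ih Q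
      obtain ⟨R', hR'⟩ := hdiv R
      refine ⟨R', ?_⟩
      rw [pow_succ, map_mul, ← hR]
      change φ ((1 - X) ^ n) (φ (1 - X) R') = _
      congr 1
      rw [map_sub φ, map_one, hφX]
      exact hR'
  obtain ⟨R, hR⟩ := hlam (l - 1) Q
  refine ⟨φ g R, ?_⟩
  rw [hg, map_add] at hR
  have h2 : (φ (∑ i ∈ Finset.range l, X ^ i) + φ (C (l : ℤ) * g)) R =
      φ (∑ i ∈ Finset.range l, X ^ i) R + φ (C (l : ℤ) * g) R := rfl
  have h3 : φ (C (l : ℤ)) = ((l : ℕ) : AddMonoid.End J) := by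
    rw [show (C (l : ℤ) : ℤ[X]) = ((l : ℕ) : ℤ[X]) from by simp, map_natCast]
  rw [h2, hsum, zero_add, map_mul, h3] at hR
  exact hR

end gen

section mod

variable {K Ω : Type} [Field K] [Field Ω] [Algebra K Ω] {l : ℕ} {J : Type} [AddCommGroup J]
  [DistribMulAction (Ω ≃ₐ[K] Ω) J] {D : AutM l (Ω ≃ₐ[K] Ω) J} {chi : (Ω ≃ₐ[K] Ω) → ZMod l}

variable (K Ω J) in
/-- Every element of `J` is fixed by an open subgroup. -/
def LevJ : Prop := ∀ Q : J, ∃ L : IntermediateField K Ω, FiniteDimensional K L ∧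
  ∀ s t : Ω ≃ₐ[K] Ω, (∀ x ∈ L, s x = t x) → s • Q = t • Q

theorem gmod_twJ [NeZero l] (hchi : ∀ s t, chi (s * t) = chi s + chi t)
    (ho : ∃ U : Subgroup (Ω ≃ₐ[K] Ω), IsOpen (U : Set (Ω ≃ₐ[K] Ω)) ∧ ∀ s ∈ U, chi s = 0)
    (hJ : LevJ K Ω J) : GMod (twJ D chi) := by
  have hchi1 : chi 1 = 0 := by
    have := hchi 1 1
    rw [mul_one] at this
    exact left_eq_add.1 this
  refine ⟨fun Q => ?_, fun s t Q => twJ_mul hchi s t Q, fun Q => ?_⟩
  · rw [twJ_apply, hchi1, ZMod.val_zero, one_smul]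
    rfl
  · obtain ⟨L, hL, h1⟩ := hJ Q
    obtain ⟨U, hU, h2⟩ := ho
    obtain ⟨F, hF, h3⟩ := exists_fix_le hU
    refine ⟨L ⊔ F, IntermediateField.finiteDimensional_sup L F, fun s t hst => ?_⟩
    have h4 : s⁻¹ * t ∈ U := by
      apply h3
      intro x hx
      rw [AlgEquiv.mul_apply, ← hst x (le_sup_right (a := L) (b := F) hx), ← AlgEquiv.mul_apply,
        inv_mul_cancel, AlgEquiv.one_apply]
    have h5 : chi t = chi s := by
      have h6 := hchi s (s⁻¹ * t)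
      rw [mul_inv_cancel_left, h2 _ h4, add_zero] at h6
      exact h6
    rw [twJ_apply, twJ_apply, h5, h1 s t fun x hx => hst x (le_sup_left (a := L) (b := F) hx)]

end mod

section lev

variable {k K Ω : Type} [Field k] [Finite k] [Field K] [Algebra k K] [Algebra (RatFunc k) K]
  [IsScalarTower k (RatFunc k) K] [FiniteDimensional (RatFunc k) K]
  [Algebra.IsSeparable (RatFunc k) K] [Field Ω] [Algebra K Ω] [IsSepClosure K Ω]
  {l : ℕ} {ζ : Ω} {NN : Set (Subgroup (Ω ≃ₐ[K] Ω))} {w : Place k K → ValuationSubring Ω}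
  {sg ph : Place k K → Ω ≃ₐ[K] Ω}
  {J : Type} [AddCommGroup J] [DistribMulAction (Ω ≃ₐ[K] Ω) J] {D : AutM l (Ω ≃ₐ[K] Ω) J}
  {V1 : Type} [AddCommGroup V1] [Module (ZMod l) V1]
  {a : (Ω ≃ₐ[K] Ω) →* (V1 ≃ₗ[ZMod l] V1)} {e : V1 →ₗ[ZMod l] V1 →ₗ[ZMod l] ZMod l}
  {io : V1 →+ J} {T : Finset (Place k K)} {chi : (Ω ≃ₐ[K] Ω) → ZMod l}

omit [Algebra.IsSeparable (RatFunc k) K] in
theorem levV_of [NeZero l] (h2 : (2 : k) ≠ 0) (hl : l.Prime) (hζ : IsPrimitiveRoot ζ l)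
    (hK : ∀ s : Ω ≃ₐ[K] Ω, s ζ = ζ) (hS : Std l ζ NN w sg ph)
    (hG : (⟨a, a, e⟩ : DP l (Ω ≃ₐ[K] Ω) V1 V1).Gd (bK NN w sg ph))
    (hM : ModS D (bK NN w sg ph) a e io T) (hJ : LevJ K Ω J)
    (hTF : (bK NN w sg ph).TF chi) (hchi : ∀ s t, chi (s * t) = chi s + chi t)
    (v : Place k K) : LevV D (bK NN w sg ph) io chi v := by
  intro Q x hx
  have hgal : IsGalois K Ω := inferInstance
  obtain ⟨L, hL, h1⟩ := hJ Q
  obtain ⟨U, hUn, hUo, hU⟩ := exists_normal_fix L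
  obtain ⟨N, hN, h3⟩ := hTF
  have hNn := hS.fam.normal N hN
  refine tfOn_of_open (U := U ⊓ N) h2 hl hζ hK hS hG.ok.ker (hG.lo.cp v) (coc_of_tw hM hchi hx)
    inferInstance ?_ fun s hs u hu hud => hM.inj ?_
  · rw [Subgroup.coe_inf]
    exact hUo.inter (hS.fam.isOpen N hN)
  · rw [← hx s hs, ← hx _ (mul_mem hs hud), twJ_apply, twJ_apply, h3 s u hu.2, mul_smul,
      h1 u 1 fun y hy => hU u hu.1 y hy, one_smul]

/-- **From small Selmer groups of `V` to the conclusions for `J`.** -/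
theorem goodOn_of_small [Fact l.Prime] (h2 : (2 : k) ≠ 0) (hl2 : l ≠ 2)
    (hζ : IsPrimitiveRoot ζ l) (hζK : ∃ z : K, algebraMap K Ω z = ζ)
    (hS : Std l ζ NN w sg ph)
    (he : ∀ x y, e x y = e y x)
    (hG : (⟨a, a, e⟩ : DP l (Ω ≃ₐ[K] Ω) V1 V1).Gd (bK NN w sg ph))
    (hM : ModS D (bK NN w sg ph) a e io T) (hJ : LevJ K Ω J)
    (hok : (sysS D (bK NN w sg ph) a e io T).Ok)
    (nofix : ∀ w : V1, (∀ s, a s w = w) → w = 0)
    (hchi : (sysS D (bK NN w sg ph) a e io T).HomG chi)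
    (hiso : ∀ v, IsoV D (bK NN w sg ph) a e io chi v) {m : ℕ}
    (hsm : SmallS (sysS D (bK NN w sg ph) a e io T) m chi) :
    GoodOn k (twJ D chi) l ((l * Nat.card V1) ^ m) := by
  have hl : l.Prime := Fact.out
  have hgal : IsGalois K Ω := inferInstance
  have hK : ∀ s : Ω ≃ₐ[K] Ω, s ζ = ζ := by
    obtain ⟨z, hz⟩ := hζK
    intro s
    rw [← hz, AlgEquiv.commutes]
  have hB := std_ok hl hl2 hζ hζK hS
  have hL := lnkS hB hG.ok he hM
  have hb := sel_of_small (k := k) (famE_of hS.fam) (brH_of hS).pl hL hok hM hchi hiso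
    (fun v => levV_of h2 hl hζ hK hS hG hM hJ hchi.1 hchi.2 v) nofix hsm
  refine good_of_bdd k (gmod_twJ hchi.2 ?_ hJ) hl (exists_l_smul D hM.div) hb
  obtain ⟨N, hN, h3⟩ := hchi.1
  refine ⟨N, hS.fam.isOpen N hN, fun s hs => ?_⟩
  have hchi1 : chi 1 = 0 := by
    have := hchi.2 1 1
    rw [mul_one] at this
    exact left_eq_add.1 this
  have h4 := h3 1 s hs
  rw [one_mul, hchi1] at h4
  exact h4

end lev

theorem nontrivial_V0 {l n : ℕ} [Fact l.Prime] (hn : 2 ≤ n) : Nontrivial (V0 l n) := by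
  have hi : (⟨0, by omega⟩ : Fin n) ≠ ⟨1, by omega⟩ := by
    intro h
    have := congrArg Fin.val h
    simp at this
  refine ⟨⟨⟨Pi.single ⟨0, by omega⟩ 1 - Pi.single ⟨1, by omega⟩ 1, ?_⟩, 0, fun h => ?_⟩⟩
  · rw [v0_mem]
    simp
  · have h1 := congrFun (congrArg Subtype.val h) ⟨0, by omega⟩
    simp [hi] at h1

section curve

variable {k K Ω : Type} [Field k] [Finite k] [Field K] [Algebra k K] [Algebra (RatFunc k) K]
  [IsScalarTower k (RatFunc k) K] [FiniteDimensional (RatFunc k) K]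
  [Algebra.IsSeparable (RatFunc k) K] [Field Ω] [Algebra K Ω] [IsSepClosure K Ω]
  [IsSepClosed Ω]
  {l : ℕ} [Fact l.Prime] {ζ : Ω} {n : ℕ} {a : Fin n → Ω} [SupA l a] [RtS K a] [SmChar l (ff a)]

theorem levJ_JS : LevJ K Ω (JS l K a) := fun Q => gS_level K a Q

/-- The twists of one curve, `k` the field of constants. -/
theorem twists_core (h2 : (2 : k) ≠ 0)
    (hk : ∀ x : K, IsIntegral k x → ∃ c : k, algebraMap k K c = x) (hlk : (l : k) ≠ 0)
    (hζ : IsPrimitiveRoot ζ l) (hζK : ∃ z : K, algebraMap K Ω z = ζ)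
    {f : K[X]} [CopDeg l f] [Sup l (fO Ω f)] (hm : f.Monic)
    (hs : f.Separable) (hfa : fO Ω f = ff a) (htr : ∀ i j, ∃ s, pmS K a s i = j)
    (hA : ActOk l (ac0 l (pmS K a)))
    (hiso : ∀ (w : Place k K → ValuationSubring Ω) (sg ph : Place k K → Ω ≃ₐ[K] Ω),
      Std l ζ (NNt (pmS K a).ker) w sg ph → IsotK l a hζ (NNt (pmS K a).ker) w sg ph) :
    (∀ N, (TwLE k l N (fun _ : Kˣ => True)).Finite) ∧
    ∀ ε : ℝ, 0 < ε → ∃ B N₀ : ℕ, ∀ N ≥ N₀,
      ((TwLE k l N (fun D : Kˣ => ¬ GoodOn k (galP l Ω (twf D f)) l B)).ncard : ℝ) ≤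
        ε * (TwLE k l N (fun _ : Kˣ => True)).ncard := by
  classical
  have hl : l.Prime := Fact.out
  have hl2 : l ≠ 2 := SupA.odd (l := l) (a := a)
  have hgal : IsGalois K Ω := inferInstance
  have hn2 : 2 ≤ n := SupA.two_le (l := l) (a := a)
  have hnt : Nontrivial (V0 l n) := nontrivial_V0 hn2
  have hK : ∀ s : Ω ≃ₐ[K] Ω, s ζ = ζ := by
    obtain ⟨z, hz⟩ := hζK
    intro s
    rw [← hz, AlgEquiv.commutes]
  obtain ⟨h0, w, sg, ph, hS, hG, hsha, T1, hM⟩ :=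
    exists_datS k h2 hk hlk hζ hζK hK hm hs hfa htr hiso
  obtain ⟨fr, hfr⟩ := exists_isFrC (k := k) (K := K) (Om := Ω)
    fun x hx => hk x (SmBU.isIntegral_iff_isC.2 hx)
  have he : ∀ x y : V0 l n, e0 l n x y = e0 l n y x := e0_symm
  obtain ⟨T0, hT0⟩ := exists_aokS h2 hk hl hl2 hζ hζK h0 hS he hG hsha (hM T1 subset_rfl) hA hfr
  obtain ⟨T2, hT2⟩ := hT0 (T0 ∪ T1) Finset.subset_union_left
  obtain ⟨a', C, m0, hAOk⟩ := hT2 T2 subset_rfl
  have hM' := hM (T0 ∪ T1) Finset.subset_union_right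
  have htop : ⊤ ∈ NNt (pmS K a).ker := (std_ok hl hl2 hζ hζK hS).top_mem
  obtain ⟨hfin, hall⟩ := all_abs T2.finite_toSet hAOk
  refine all_twists h2 hl hζ hζK hS htop rfl rfl hfin
    (fun B D => GoodOn k (galP l Ω (twf D f)) l B)
    (fun m c => SmallS (sysS (autS K a hζ hK) (bK (NNt (pmS K a).ker) w sg ph)
      (ac0 l (pmS K a)) (e0 l n) (ioJ l K a) (T0 ∪ T1)) m c) (fun m _ => ?_) hall
  refine ⟨(l * Nat.card (V0 l n)) ^ m, fun d hsm => ?_⟩
  have hchi := (homG_iff_homO (S := sysS (autS K a hζ hK) (bK (NNt (pmS K a).ker) w sg ph)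
      (ac0 l (pmS K a)) (e0 l n) (ioJ l K a) (T0 ∪ T1)) hl hS htop rfl).2
    (homO_chl hl hζ hζK d.ne_zero)
  have hg := goodOn_of_small h2 hl2 hζ hζK hS he hG hM' levJ_JS hAOk.ok hA.nofix hchi
    (fun v Q Q' x x' _ _ _ h1 h3 => hiso w sg ph hS _ hchi.1 hchi.2 v Q Q' x x' h1 h3) hsm
  have hg' : GoodOn k (twA K a hζ.pow_eq_one (chl l ζ (d : K))) l
      ((l * Nat.card (V0 l n)) ^ m) := by
    have h3 : (twJ (autS K a hζ hK) (chl l ζ (d : K))) =
        (twA K a hζ.pow_eq_one (chl l ζ (d : K)) : (Ω ≃ₐ[K] Ω) → JJ l (ff a) →+ JJ l (ff a)) := by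
      funext s
      refine AddMonoidHom.ext fun Q => ?_
      exact (twA_eq K a hζ.pow_eq_one _ s Q).symm
    rw [← h3]
    exact hg
  obtain ⟨δ, hδ⟩ := Pool.Agent.SmL.Fld.exists_root hl hζ (d : K)
  exact good_twist k d hδ hζ.pow_eq_one (fun s => chl_spec hl hζ hζK d.ne_zero s hδ)
    ((tw_transport K a hfa hζ.pow_eq_one (chl l ζ (d : K)) (fun M _ ρ => GoodOn k ρ l _)).2 hg')

end curve

end Pool.Agent.SmS.Fn
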