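import Pool.Agent.Lib.SmS.Fn.Defs
import Pool.Agent.Lib.SmS.V2
import Pool.Agent.Lib.SmS.GalA
import Pool.Agent.Lib.SmS.Asm

/-!
# SMITH-S, final layer: the Galois group of `f` and the permutations of the roots

`permOk_of_galOk`: `GalOk l f` implies `PermOk (pmS K a) l`; `actOk_of_galOk`: `ActOk l (ac0 l (pmS K a))`.
-/

set_option autoImplicit false

open Polynomial

namespace Pool.Agent.SmS

/-- The facts on the action of `G` on `V0` for the counting half. -/
theorem PermOk.actOk {l n : ℕ} {G : Type*} [Group G] {π : G →* Equiv.Perm (Fin n)}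
    [Fact l.Prime] (hl2 : l ≠ 2) (hn : (n : ZMod l) ≠ 0) (h2 : 2 ≤ n) (h : PermOk π l) :
    ActOk l (ac0 l π) where
  nofix := fun w hw => h.nofix hn h2 w hw
  span := h.span hl2 hn h2
  znd := fun c hc h0 => h.znd hl2 hn hc fun s hs => h0 s fun w => by
    rw [hs]
    rfl

namespace Fn

section rts

variable {K : Type} {Ω : Type} [Field K] [Field Ω] [Algebra K Ω] {n : ℕ} {f : K[X]}
  {a : Fin n → Ω}

theorem aeval_rt (hfa : fO Ω f = ff a) (i : Fin n) : aeval (a i) f = 0 := by
  rw [← eval_map_algebraMap]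
  change (fO Ω f).eval (a i) = 0
  rw [hfa, ff_eval]
  exact Finset.prod_eq_zero (Finset.mem_univ i) (sub_self _)

theorem exists_idx (hfa : fO Ω f = ff a) {x : Ω} (hx : aeval x f = 0) : ∃ i, x = a i := by
  rw [← eval_map_algebraMap] at hx
  change (fO Ω f).eval x = 0 at hx
  rw [hfa, ff_eval, Finset.prod_eq_zero_iff] at hx
  obtain ⟨i, -, hi⟩ := hx
  exact ⟨i, sub_eq_zero.1 hi⟩

theorem deg_eq (hfa : fO Ω f = ff a) : f.natDegree = n := by
  rw [← natDegree_map (algebraMap K Ω)]
  change (fO Ω f).natDegree = n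
  rw [hfa, natDegree_ff]

variable [RtS K a]

/-- The image of the Galois group has the order of the Galois group of `f`. -/
theorem card_range [IsGalois K Ω] (hf : f.Separable) (hfa : fO Ω f = ff a) :
    Nat.card (pmS K a).range = Nat.card f.Gal := by
  classical
  have hsp : (f.map (algebraMap K Ω)).Splits := by
    change (fO Ω f).Splits
    rw [hfa, ff]
    exact Splits.prod fun i _ => Splits.X_sub_C _
  have : Fact ((f.map (algebraMap K Ω)).Splits) := ⟨hsp⟩
  have hf0 : f ≠ 0 := hf.ne_zero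
  have hinj : Function.Injective a := RtS.inj K
  have hmem : ∀ i, a i ∈ f.rootSet Ω := fun i => by
    rw [mem_rootSet]
    exact ⟨hf0, aeval_rt hfa i⟩
  let e : Fin n ≃ f.rootSet Ω := Equiv.ofBijective (fun i => ⟨a i, hmem i⟩)
    ⟨fun i j h => hinj (congrArg Subtype.val h), fun x => by
      obtain ⟨j, hj⟩ := exists_idx hfa (mem_rootSet.1 x.2).2
      exact ⟨j, Subtype.ext hj.symm⟩⟩
  let Φ : f.Gal →* Equiv.Perm (Fin n) :=
    (e.symm.permCongrHom : Equiv.Perm (f.rootSet Ω) →* Equiv.Perm (Fin n)).comp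
      (Gal.galActionHom f Ω)
  have hΦ : Function.Injective Φ :=
    e.symm.permCongrHom.injective.comp (Gal.galActionHom_injective f Ω)
  have hR : ∀ s : Ω ≃ₐ[K] Ω, Φ (Gal.restrict f Ω s) = pmS K a s := by
    intro s
    ext i
    congr 1
    apply hinj
    rw [pmS_spec K a s i]
    have h1 := Gal.galActionHom_restrict f Ω s (e i)
    change a (e.symm (Gal.galActionHom f Ω (Gal.restrict f Ω s) (e i))) = s (a i)
    have h2 : a (e.symm (Gal.galActionHom f Ω (Gal.restrict f Ω s) (e i))) =
        (e (e.symm (Gal.galActionHom f Ω (Gal.restrict f Ω s) (e i)))).1 := rfl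
    rw [h2, Equiv.apply_symm_apply]
    exact h1
  have hrange : Φ.range = (pmS K a).range := by
    apply le_antisymm
    · rintro _ ⟨τ, rfl⟩
      obtain ⟨s, rfl⟩ := Gal.restrict_surjective f Ω τ
      exact ⟨s, (hR s).symm⟩
    · rintro _ ⟨s, rfl⟩
      exact ⟨_, hR s⟩
  rw [← hrange, Nat.card_congr (MonoidHom.ofInjective hΦ).symm.toEquiv]

theorem surj_of_card [IsGalois K Ω] (hf : f.Separable) (hfa : fO Ω f = ff a)
    (hG : Nat.card f.Gal = f.natDegree.factorial) : Function.Surjective (pmS K a) := by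
  rw [← MonoidHom.range_eq_top]
  apply Subgroup.eq_top_of_card_eq
  rw [card_range hf hfa, hG, deg_eq hfa, Nat.card_perm, Nat.card_fin]

end rts

section sepc

variable {K : Type} [Field K] {n l : ℕ} {f : K[X]} {a : Fin n → SeparableClosure K} [RtS K a]

/-- **The permutations of the roots.** -/
theorem permOk_of_galOk (hf : f.Separable) (hfa : fO (SeparableClosure K) f = ff a)
    (hG : GalOk l f) : PermOk (pmS K a) l := by
  have : IsGalois K (SeparableClosure K) := IsSepClosure.isGalois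
  rcases hG with h | ⟨h, hd⟩
  · exact Or.inl (surj_of_card hf hfa h)
  · refine Or.inr ⟨by rwa [card_range hf hfa], fun i j i' j' hij hij' => ?_⟩
    have hinj : Function.Injective a := RtS.inj K
    obtain ⟨s, h1, h2⟩ := hd (a i) (a j) (a i') (a j') (aeval_rt hfa i) (aeval_rt hfa j)
      (aeval_rt hfa i') (aeval_rt hfa j') (fun h => hij (hinj h)) fun h => hij' (hinj h)
    refine ⟨s, hinj ?_, hinj ?_⟩
    · rw [pmS_spec K a, h1]
    · rw [pmS_spec K a, h2]

theorem actOk_of_galOk [Fact l.Prime] (hl2 : l ≠ 2) (hn : (n : ZMod l) ≠ 0) (h2 : 2 ≤ n)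
    (hf : f.Separable) (hfa : fO (SeparableClosure K) f = ff a) (hG : GalOk l f) :
    ActOk l (ac0 l (pmS K a)) := (permOk_of_galOk hf hfa hG).actOk hl2 hn h2

end sepc

end Fn

end Pool.Agent.SmS
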