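import Pool.Agent.Lib.SmS.V1

/-!
SMITH-S, final layer: group theory of the module `V1 = V0 l n` (`SmS/V1.lean`).

`BigP l π`: the group acts on `Fin n` through the full symmetric group, or doubly transitively through a
group of order prime to `l`.

`h1_big`. The cocycle `c` depends on `π s` only (`ac0` is trivial exactly on the kernel of `π`, because `l` does not divide
`n`: the permutation module is `V0 ⊕ 1`; at least: `π s = 1` implies `ac0 l π s = 1`).
(a) `π` onto: put `i0 = 0`. On the stabilizer of `i` the map `s ↦ (c s)_i` is a homomorphism to `ZMod l`,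
`(c (s t))_i = (c s)_i + (c t)_(π(s)⁻¹ i)`. It vanishes: the stabilizer of `i` in the symmetric group is generated by
transpositions (`π s = swap j k`, `j, k ≠ i`: `(c (s s))_i = 2 (c s)_i` and `c (s s) = 0`, `l ≠ 2`), use
`Equiv.Perm.swap_induction_on` on the permutations fixing `i` (e.g. every permutation fixing `i` is a product of
transpositions fixing `i`: `Equiv.Perm.swap_induction_on'` for `optionSubtype`, or `Equiv.Perm.support` induction).
So `z_j := (c s)_j` for any `s` with `π s i0 = j` is well defined, `(c (s t))_(π(s) j) = (c s)_(π(s) j) + (c t)_j` gives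
`(c s)_j = z_j - z_(π(s)⁻¹ j)`; finally replace `z` by `- p0 z` (`p0_ac`, constants are fixed).
(b) order prime to `l`: `z = - (1 / #π.range) ∑ c`, the sum over the finite group `π.range`.

`span_dt`. `H = π.range`, `l ∤ #H`; `#H` is divisible by `n (n - 1)` (double transitivity), so `l ∤ n - 1`. If the span `W` of the
`(ρ(h), 1)` is not everything there is a nonzero functional `(X, x) ↦ tr (C X) + c x` which vanishes on it. Schur: for
`X ∈ End V0` the sum `∑_h ρ(h) X ρ(h⁻¹)` commutes with `H`, so it is a scalar (an endomorphism of `V0` commuting with a doubly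
transitive group is a scalar: it extends by `0` on the constants to a matrix which is constant on the diagonal
and off the diagonal), so `∑_h tr (C ρ(h)) ρ(h⁻¹) = (#H / (n - 1)) C`; and `∑_h ρ(h) = 0` on `V0`; hence `C = 0`, `c = 0`.
(Or Mathlib's Jacobson density theorem for the semisimple module `Fin n → ZMod l`.)
-/

set_option autoImplicit false

open Finset

namespace Pool.Agent.SmS.Fn

variable {l n : ℕ} {G : Type*} [Group G] {π : G →* Equiv.Perm (Fin n)}

/-- Doubly transitive. -/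
def DT (π : G →* Equiv.Perm (Fin n)) : Prop :=
  ∀ i j i' j', i ≠ j → i' ≠ j' → ∃ s, π s i = i' ∧ π s j = j'

/-- The full symmetric group, or doubly transitive of order prime to `l`. -/
def BigP (l : ℕ) (π : G →* Equiv.Perm (Fin n)) : Prop :=
  Function.Surjective π ∨ (DT π ∧ ¬ l ∣ Nat.card π.range)

theorem big_trans (hn : 2 ≤ n) (h : BigP l π) (i j : Fin n) : ∃ s, π s i = j := by
  rcases h with h | ⟨h, -⟩
  · obtain ⟨s, hs⟩ := h (Equiv.swap i j)
    exact ⟨s, by rw [hs, Equiv.swap_apply_left]⟩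
  · have : Nontrivial (Fin n) := Fin.nontrivial_iff_two_le.2 hn
    obtain ⟨i', hi'⟩ := exists_ne i
    obtain ⟨j', hj'⟩ := exists_ne j
    obtain ⟨s, hs, -⟩ := h i i' j j' hi'.symm hj'.symm
    exact ⟨s, hs⟩

section aux

variable {c : G → V0 l n} (hc : ∀ s t, c (s * t) = c s + ac0 l π s (c t))
  (h0 : ∀ s, ac0 l π s = 1 → c s = 0)

private theorem ac0_one_of {s : G} (h : π s = 1) : ac0 l π s = 1 := by
  refine LinearEquiv.ext fun w => ?_
  ext i
  rw [ac0_apply, h, inv_one, Equiv.Perm.one_apply]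
  rfl

include hc h0

private theorem c_eq_zero {s : G} (h : π s = 1) : c s = 0 := h0 s (ac0_one_of h)

private theorem c_congr {s t : G} (h : π s = π t) : c s = c t := by
  have h1 : π (s * t⁻¹) = 1 := by rw [map_mul, map_inv, h, mul_inv_cancel]
  have h2 := hc (s * t⁻¹) t
  rw [inv_mul_cancel_right, c_eq_zero hc h0 h1, zero_add, ac0_one_of h1] at h2
  exact h2

omit h0 in
private theorem hc_apply (s t : G) (i : Fin n) :
    (c (s * t)).1 i = (c s).1 i + (c t).1 ((π s)⁻¹ i) := by
  rw [hc]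
  rfl

private theorem stab_zero [Fact l.Prime] (hl2 : l ≠ 2) (hπ : Function.Surjective π) (i : Fin n)
    (τ : Equiv.Perm {x : Fin n // x ≠ i}) :
    ∀ s : G, π s = Equiv.Perm.ofSubtype τ → (c s).1 i = 0 := by
  have h2 : (2 : ZMod l) ≠ 0 := by
    intro h
    have h1 : ((2 : ℕ) : ZMod l) = 0 := by exact_mod_cast h
    rw [ZMod.natCast_eq_zero_iff] at h1
    exact hl2 ((Nat.prime_dvd_prime_iff_eq Fact.out Nat.prime_two).1 h1)
  induction τ using Equiv.Perm.swap_induction_on with
  | one =>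
    intro s hs
    rw [map_one] at hs
    rw [c_eq_zero hc h0 hs]
    rfl
  | swap_mul f x y hxy ih =>
    intro s hs
    obtain ⟨t, ht⟩ := hπ (Equiv.swap (x : Fin n) y)
    obtain ⟨u, hu⟩ := hπ (Equiv.Perm.ofSubtype f)
    have h3 : π s = π (t * u) := by
      rw [hs, map_mul, map_mul, ht, hu, Equiv.Perm.ofSubtype_swap_eq]
    have h4 : (π t)⁻¹ i = i := by
      rw [ht, Equiv.swap_inv, Equiv.swap_apply_of_ne_of_ne x.2.symm y.2.symm]
    have h5 : c (t * t) = 0 := by
      refine c_eq_zero hc h0 ?_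
      rw [map_mul, ht, Equiv.swap_mul_self]
    have h6 := hc_apply hc t t i
    rw [h5, h4, ← two_mul] at h6
    have h7 : (c t).1 i = 0 := (mul_eq_zero.1 h6.symm).resolve_left h2
    rw [c_congr hc h0 h3, hc_apply hc, h4, h7, ih u hu, add_zero]

private theorem fix_zero [Fact l.Prime] (hl2 : l ≠ 2) (hπ : Function.Surjective π) (i : Fin n)
    (s : G) (hs : π s i = i) : (c s).1 i = 0 := by
  have h1 : ∀ x, x ≠ i ↔ π s x ≠ i := fun x =>
    ⟨fun h h' => h ((π s).injective (h'.trans hs.symm)), fun h h' => h (by rw [h', hs])⟩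
  refine stab_zero hc h0 hl2 hπ i ((π s).subtypePerm fun x => (h1 x).symm) s ?_
  have h2 : ∀ x, π s x ≠ x → x ≠ i := fun x hx h' => hx (by rw [h', hs])
  exact (Equiv.Perm.ofSubtype_subtypePerm (p := fun x => x ≠ i) (fun x => (h1 x).symm) h2).symm

private theorem h1_surj [Fact l.Prime] (hl2 : l ≠ 2) (hn : (n : ZMod l) ≠ 0) (i₀ : Fin n)
    (hπ : Function.Surjective π) : ∃ z : V0 l n, ∀ s, c s = ac0 l π s z - z := by
  have h1 : ∀ j, ∃ s : G, π s i₀ = j := fun j => by
    obtain ⟨s, hs⟩ := hπ (Equiv.swap i₀ j)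
    exact ⟨s, by rw [hs, Equiv.swap_apply_left]⟩
  choose r hr using h1
  have h2 : ∀ (s : G) (j : Fin n), π s i₀ = j → (c s).1 j = (c (r j)).1 j := by
    intro s j hs
    have h3 : π ((r j)⁻¹ * s) i₀ = i₀ := by
      rw [map_mul, map_inv, Equiv.Perm.mul_apply, hs, Equiv.Perm.inv_eq_iff_eq, hr j]
    have h4 := hc_apply hc (r j) ((r j)⁻¹ * s) j
    rw [mul_inv_cancel_left] at h4
    have h5 : (π (r j))⁻¹ j = i₀ := by
      rw [Equiv.Perm.inv_eq_iff_eq, hr j]
    rw [h4, h5, fix_zero hc h0 hl2 hπ i₀ _ h3, add_zero]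
  refine ⟨p0 l n hn (fun j => -(c (r j)).1 j), fun s => ?_⟩
  rw [← p0_ac π hn, ← map_sub]
  have h6 : (fun x => -(c (r ((π s)⁻¹ x))).1 ((π s)⁻¹ x)) - (fun j => -(c (r j)).1 j) =
      i0 l n (c s) := by
    funext j
    change -(c (r ((π s)⁻¹ j))).1 ((π s)⁻¹ j) - -(c (r j)).1 j = (c s).1 j
    have h7 : π (s * r ((π s)⁻¹ j)) i₀ = j := by
      rw [map_mul, Equiv.Perm.mul_apply, hr, ap_inv]
    have h8 := h2 _ _ h7
    rw [hc_apply hc] at h8
    rw [← h8]
    ring
  rw [h6, p0_i0]

private theorem h1_prime [Fact l.Prime] (hl : ¬ l ∣ Nat.card π.range) :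
    ∃ z : V0 l n, ∀ s, c s = ac0 l π s z - z := by
  classical
  have hN : ((Nat.card π.range : ℕ) : ZMod l) ≠ 0 := fun h =>
    hl ((ZMod.natCast_eq_zero_iff _ _).1 h)
  have h1 : ∀ σ : π.range, ∃ s : G, π s = σ := fun σ => σ.2
  choose r hr using h1
  set z0 : V0 l n := ∑ σ : π.range, c (r σ) with hz0
  refine ⟨-((Nat.card π.range : ZMod l)⁻¹ • z0), fun s => ?_⟩
  have h2 : ∀ σ : π.range, c s + ac0 l π s (c (r σ)) = c (r (⟨π s, s, rfl⟩ * σ)) := by
    intro σ
    rw [← hc]
    refine c_congr hc h0 ?_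
    rw [hr, map_mul, hr]
    rfl
  have h3 : (Nat.card π.range : ZMod l) • c s + ac0 l π s z0 = z0 := by
    have h4 : ∑ σ : π.range, c (r (⟨π s, s, rfl⟩ * σ)) = z0 :=
      Equiv.sum_comp (Equiv.mulLeft (⟨π s, s, rfl⟩ : π.range)) fun σ => c (r σ)
    calc (Nat.card π.range : ZMod l) • c s + ac0 l π s z0
        = ∑ σ : π.range, (c s + ac0 l π s (c (r σ))) := by
          rw [Finset.sum_add_distrib, Finset.sum_const, Finset.card_univ,
            ← Nat.card_eq_fintype_card, hz0, map_sum, Nat.cast_smul_eq_nsmul]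
      _ = ∑ σ : π.range, c (r (⟨π s, s, rfl⟩ * σ)) := Finset.sum_congr rfl fun σ _ => h2 σ
      _ = z0 := h4
  have h5 : c s = (Nat.card π.range : ZMod l)⁻¹ • (z0 - ac0 l π s z0) := by
    have h6 : z0 - ac0 l π s z0 = (Nat.card π.range : ZMod l) • c s := by
      rw [sub_eq_iff_eq_add]
      exact h3.symm
    rw [h6, smul_smul, inv_mul_cancel₀ hN, one_smul]
  rw [h5, map_neg, map_smul, smul_sub]
  abel

end aux

theorem h1_big [Fact l.Prime] (hl2 : l ≠ 2) (hn : (n : ZMod l) ≠ 0) (hn2 : 2 ≤ n)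
    (h : BigP l π) {c : G → V0 l n} (hc : ∀ s t, c (s * t) = c s + ac0 l π s (c t))
    (h0 : ∀ s, ac0 l π s = 1 → c s = 0) : ∃ z : V0 l n, ∀ s, c s = ac0 l π s z - z := by
  rcases h with h | ⟨-, h⟩
  · exact h1_surj hc h0 hl2 hn ⟨0, by omega⟩ h
  · exact h1_prime hc h0 h

end Pool.Agent.SmS.Fn
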