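import Pool.Agent.Lib.SmS.Fn.Core
import Pool.Agent.Lib.SmS.Fn.Cst
import Pool.Agent.Lib.SmS.IsotK
import Pool.Agent.Lib.SmS.Fn.GalP

/-!
# SMITH-S (MP_950c68_ag): the superelliptic twists `y ^ l = D f(x)` over a global function field

`twistsS`: for every `ε > 0` there is a `B` such that for all but a proportion `ε` of the twists (ordered
by the degree of the conductor of `D`) all `l ^ i`-Selmer groups, the `l`-primary part of the
Tate-Shafarevich group and all `J(K) / l ^ i J(K)` have at most `B` elements.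
-/

set_option autoImplicit false

open Polynomial

namespace Pool.Agent.SmS.Fn

open Pool.Agent.BSDFF Pool.Agent.GBU
open Pool.Agent.GBC (exists_ratFunc)
open Pool.Agent.SmN.Fnl (cst finite_cst trdeg_cst essFinite_cst const_cst)

/-- The numbers below the characteristic are not zero. -/
theorem cast_ne {k F : Type} [Field k] [Field F] [Algebra k F] {m : ℕ} (hp : m < ringChar k)
    {d : ℕ} (h1 : 1 ≤ d) (h2 : d ≤ m) : (d : F) ≠ 0 := by
  intro h
  have h3 : (d : k) = 0 := by
    apply (algebraMap k F).injective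
    rw [map_natCast, h, map_zero]
  have h4 := Nat.le_of_dvd (by omega) ((ringChar.spec k d).1 h3)
  omega

/-- The twists, `k` the field of constants of `K`. -/
theorem twists_cst {k K : Type} [Field k] [Finite k] [Field K] [Algebra k K]
    [Algebra (RatFunc k) K] [IsScalarTower k (RatFunc k) K] [FiniteDimensional (RatFunc k) K]
    [Algebra.IsSeparable (RatFunc k) K]
    (hk : ∀ x : K, IsIntegral k x → ∃ c : k, algebraMap k K c = x) {l : ℕ} [Fact l.Prime]
    (hl : l ≠ 2) (hz : ∃ z : K, IsPrimitiveRoot z l) {f : K[X]} [CopDeg l f] (hm : f.Monic)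
    (hs : f.Separable) (h2 : 2 ≤ f.natDegree) (hp : f.natDegree * (l - 1) < ringChar k)
    (hG : GalOk l f) :
    (∀ N, (TwLE k l N (fun _ : Kˣ => True)).Finite) ∧
    ∀ ε : ℝ, 0 < ε → ∃ B N₀ : ℕ, ∀ N ≥ N₀,
      ((TwLE k l N (fun D : Kˣ => ¬ GoodJ k l (twf D f) B)).ncard : ℝ) ≤
        ε * (TwLE k l N (fun _ : Kˣ => True)).ncard := by
  have hlp : l.Prime := Fact.out
  have hl3 : 3 ≤ l := by
    have := hlp.two_le
    omega
  have hle : 2 * (l - 1) ≤ f.natDegree * (l - 1) := Nat.mul_le_mul_right _ h2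
  have hgal : IsGalois K (SeparableClosure K) := IsSepClosure.isGalois
  have hcast : ∀ d : ℕ, 1 ≤ d → d ≤ f.natDegree * (l - 1) → (d : k) ≠ 0 := fun d h3 h4 =>
    cast_ne (F := k) hp h3 h4
  have hcastΩ : ∀ d : ℕ, 1 ≤ d → d ≤ f.natDegree * (l - 1) → (d : SeparableClosure K) ≠ 0 := by
    intro d h3 h4 h5
    refine cast_ne (F := K) hp h3 h4 ?_
    apply (algebraMap K (SeparableClosure K)).injective
    rw [map_natCast, h5, map_zero]
  have h2k : (2 : k) ≠ 0 := by exact_mod_cast hcast 2 (by omega) (by omega)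
  have hlk : (l : k) ≠ 0 := hcast l (by omega) (by omega)
  have hlΩ : (l : SeparableClosure K) ≠ 0 := hcastΩ l (by omega) (by omega)
  obtain ⟨a, hinj, hfa⟩ := exists_rtsS (F := fO (SeparableClosure K) f) (hm.map _) hs.map
    (IsSepClosed.splits_codomain f hs)
  have hnd : (fO (SeparableClosure K) f).natDegree = f.natDegree := natDegree_map _
  have hcop : l.Coprime (fO (SeparableClosure K) f).natDegree := by
    rw [hnd]
    exact CopDeg.cop
  have hA : SupA l a := ⟨hinj, hcop, by rw [hnd]; exact h2, hl, hlΩ⟩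
  have hR : RtS K a := rtS_of K a hinj hfa
  have hSup : Sup l (fO (SeparableClosure K) f) :=
    { cop := hcop
      monic := hm.map _
      sep := hs.map
      two_le := by rw [hnd]; exact h2
      odd := hl
      ne := hlΩ }
  have hSm : SmChar l (ff a) := ⟨fun d h3 h4 => hcastΩ d h3 (by
    rwa [natDegree_ff, hnd] at h4)⟩
  obtain ⟨z, hz⟩ := hz
  have hζ : IsPrimitiveRoot (algebraMap K (SeparableClosure K) z) l :=
    hz.map_of_injective (algebraMap K (SeparableClosure K)).injective
  have hP : PermOk (pmS K a) l := permOk_of_galOk hs hfa hG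
  have h2' : 2 ≤ (fO (SeparableClosure K) f).natDegree := by rw [hnd]; exact h2
  refine twists_core h2k hk hlk hζ ⟨z, rfl⟩ hm hs hfa (hP.trans h2')
    (hP.actOk hl (n_ne (a := a)) h2')
    fun w sg ph hS => isotK h2k hl hζ ⟨z, rfl⟩ hS ⟨_, ?_, le_rfl⟩
  exact SmL.NNp.self_mem inferInstance ker_pmS_open

/-- **The superelliptic twists of one curve**: for all but a proportion `ε` of the `D ∈ Kˣ / Kˣˡ` (ordered
by the degree of the conductor) the `l`-power Selmer groups, the `l`-primary part of the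
Tate-Shafarevich group and `J(K) / l ^ i J(K)` are bounded by `B`. -/
theorem twistsS (k K : Type) [Field k] [Finite k] [Field K] [Algebra k K]
    [Algebra.EssFiniteType k K] (hK : Algebra.trdeg k K = 1) (l : ℕ) [Fact l.Prime] (hl : l ≠ 2)
    (hz : ∃ z : K, IsPrimitiveRoot z l) (f : Polynomial K) [CopDeg l f] (hm : f.Monic)
    (hs : f.Separable) (h2 : 2 ≤ f.natDegree) (hp : f.natDegree * (l - 1) < ringChar k)
    (hG : GalOk l f) :
    (∀ N, (TwLE k l N (fun _ : Kˣ => True)).Finite) ∧
    ∀ ε : ℝ, 0 < ε → ∃ B N₀ : ℕ, ∀ N ≥ N₀,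
      ((TwLE k l N (fun D : Kˣ => ¬ GoodJ k l (twf D f) B)).ncard : ℝ) ≤
        ε * (TwLE k l N (fun _ : Kˣ => True)).ncard := by
  have hfin : Finite (cst k K) := finite_cst k K hK
  have htr : Algebra.trdeg (cst k K) K = 1 := trdeg_cst k K hK
  have hess : Algebra.EssFiniteType (cst k K) K := essFinite_cst k K
  have hpf : PerfectField (cst k K) := inferInstance
  obtain ⟨alg, i1, i2, i3⟩ := exists_ratFunc (cst k K) K htr
  have hch : ringChar k = ringChar (cst k K) := Algebra.ringChar_eq k (cst k K)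
  refine tw_descend (k := k) (k' := cst k K)
    (Bad' := fun B D => ¬ GoodJ (cst k K) l (twf D f) B) (fun B d h h' => h ?_)
    (twists_cst (fun x hx => const_cst k K x (SmBU.isIntegral_iff_isC.1 hx)) hl hz hm hs h2
      (by rw [← hch]; exact hp) hG)
  exact goodOn_const (cst k K) k _ h'

end Pool.Agent.SmS.Fn
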