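import Pool.Agent.Lib.SmS.Fn.Grp

/-!
SMITH-S, final layer: `F_l[G] → End V1 × F_l` is onto for `BigP` (see the header of `Fn/Grp.lean`).
-/

set_option autoImplicit false

open Finset

namespace Pool.Agent.SmS.Fn

variable {l n : ℕ} {G : Type*} [Group G] {π : G →* Equiv.Perm (Fin n)}

theorem span_dt [Fact l.Prime] (hl2 : l ≠ 2) (hn : (n : ZMod l) ≠ 0) (hn2 : 2 ≤ n) (h : DT π)
    (hc : ¬ l ∣ Nat.card π.range) (B : V0 l n →ₗ[ZMod l] V0 l n) (ε : ZMod l) :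
    ∃ U : G →₀ ZMod l, (∀ w, ∑ g ∈ U.support, U g • ac0 l π g w = B w) ∧
      ∑ g ∈ U.support, U g = ε := by
  sorry

theorem span_big [Fact l.Prime] (hl2 : l ≠ 2) (hn : (n : ZMod l) ≠ 0) (hn2 : 2 ≤ n)
    (h : BigP l π) (B : V0 l n →ₗ[ZMod l] V0 l n) (ε : ZMod l) :
    ∃ U : G →₀ ZMod l, (∀ w, ∑ g ∈ U.support, U g • ac0 l π g w = B w) ∧
      ∑ g ∈ U.support, U g = ε := by
  rcases h with h | ⟨h, hc⟩
  · exact span0 π hl2 hn h B ε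
  · exact span_dt hl2 hn hn2 h hc B ε

end Pool.Agent.SmS.Fn
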